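import Mathlib.Data.Nat.Prime.Basic
import Mathlib.Algebra.Field.Basic
import Mathlib.Algebra.CharP.Basic
import Mathlib.Tactic

set_option autoImplicit false

/-! A finite set of conditional equations, each valid in every common meadow, derives all the
conditional equations `phi p` for primes `p ≥ 5`. -/

namespace Pool.Agent.Results.MP_f888fa_lc.FiniteBasis

universe u

/-- Terms over the signature `(0, 1, ⊥, +, -, ·, ÷)` with variables indexed by `ℕ`. -/
inductive Tm : Type
  | var : ℕ → Tm
  | zero : Tm
  | one : Tm
  | bot : Tm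
  | neg : Tm → Tm
  | add : Tm → Tm → Tm
  | mul : Tm → Tm → Tm
  | div : Tm → Tm → Tm

/-- Algebras for the signature `(0, 1, ⊥, +, -, ·, ÷)`. -/
structure Alg (A : Type u) where
  zero : A
  one : A
  bot : A
  neg : A → A
  add : A → A → A
  mul : A → A → A
  div : A → A → A

/-- The value of a term in an algebra under an assignment of the variables. -/
def Alg.eval {A : Type u} (M : Alg A) (v : ℕ → A) : Tm → A
  | .var n => v n
  | .zero => M.zero
  | .one => M.one
  | .bot => M.bot
  | .neg t => M.neg (M.eval v t)
  | .add s t => M.add (M.eval v s) (M.eval v t)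
  | .mul s t => M.mul (M.eval v s) (M.eval v t)
  | .div s t => M.div (M.eval v s) (M.eval v t)

/-- A conditional equation `e₁ ∧ … ∧ eₙ → e`. -/
structure CondEq where
  hyps : List (Tm × Tm)
  concl : Tm × Tm

/-- Validity of a conditional equation in an algebra (all variables universally quantified). -/
def Alg.Sat {A : Type u} (M : Alg A) (c : CondEq) : Prop :=
  ∀ v : ℕ → A, (∀ e ∈ c.hyps, M.eval v e.1 = M.eval v e.2) →
    M.eval v c.concl.1 = M.eval v c.concl.2

open Classical in
/-- The common meadow of a field `F`: the field with an extra absorptive element `none = ⊥`,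
where `x / y = x * y⁻¹` for `y ≠ 0` and `x / 0 = ⊥`. -/
noncomputable def commonMeadow (F : Type u) [Field F] : Alg (Option F) where
  zero := some 0
  one := some 1
  bot := none
  neg x := x.map (fun a => -a)
  add x y := x.bind fun a => y.map fun b => a + b
  mul x y := x.bind fun a => y.map fun b => a * b
  div x y := x.bind fun a => y.bind fun b => if b = 0 then none else some (a * b⁻¹)

/-- Simultaneous substitution. -/
def Tm.subst (σ : ℕ → Tm) : Tm → Tm
  | .var n => σ n
  | .zero => .zero
  | .one => .one
  | .bot => .bot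
  | .neg t => .neg (t.subst σ)
  | .add s t => .add (s.subst σ) (t.subst σ)
  | .mul s t => .mul (s.subst σ) (t.subst σ)
  | .div s t => .div (s.subst σ) (t.subst σ)

/-- Derivability of an equation from a list `Γ` of equations by conditional equational logic over
the set `E` of conditional equations: the laws of equality (congruence included), and
instances of members of `E` as rules. -/
inductive Der (E : Set CondEq) (Γ : List (Tm × Tm)) : Tm → Tm → Prop
  | hyp {s t : Tm} : (s, t) ∈ Γ → Der E Γ s t
  | refl (t : Tm) : Der E Γ t t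
  | symm {s t : Tm} : Der E Γ s t → Der E Γ t s
  | trans {s t r : Tm} : Der E Γ s t → Der E Γ t r → Der E Γ s r
  | neg {s t : Tm} : Der E Γ s t → Der E Γ (.neg s) (.neg t)
  | add {s s' t t' : Tm} : Der E Γ s s' → Der E Γ t t' → Der E Γ (.add s t) (.add s' t')
  | mul {s s' t t' : Tm} : Der E Γ s s' → Der E Γ t t' → Der E Γ (.mul s t) (.mul s' t')
  | div {s s' t t' : Tm} : Der E Γ s s' → Der E Γ t t' → Der E Γ (.div s t) (.div s' t')
  | rule {c : CondEq} (σ : ℕ → Tm) : c ∈ E →
      (∀ e ∈ c.hyps, Der E Γ (e.1.subst σ) (e.2.subst σ)) →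
      Der E Γ (c.concl.1.subst σ) (c.concl.2.subst σ)

/-- `E ⊢ c` in conditional equational logic. -/
def Derivable (E : Set CondEq) (c : CondEq) : Prop := Der E c.hyps c.concl.1 c.concl.2

/-- Numerals: `1`, `2 = 1 + 1`, `3 = (1 + 1) + 1`, and so on (and `0`). -/
def num : ℕ → Tm
  | 0 => .zero
  | 1 => .one
  | (n + 2) => .add (num (n + 1)) .one

/-- The conditional equation `(0/2)·(0/3) = (0/2)·(0/p) → 0/3 = 0/p`. -/
def phi (p : ℕ) : CondEq where
  hyps := [(.mul (.div .zero (num 2)) (.div .zero (num 3)),
    .mul (.div .zero (num 2)) (.div .zero (num p)))]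
  concl := (.div .zero (num 3), .div .zero (num p))

/-! ### The finite set -/

/-- `x + (y + z) = (x + y) + z` -/
def axAssoc : CondEq where
  hyps := []
  concl := (.add (.var 0) (.add (.var 1) (.var 2)), .add (.add (.var 0) (.var 1)) (.var 2))

/-- `0 · 1 = 0` -/
def axOne : CondEq where
  hyps := []
  concl := (.mul .zero .one, .zero)

/-- `0 · x = 0 ∧ 0 · y = 0 → 0 · (x + y) = 0` -/
def axAdd : CondEq where
  hyps := [(.mul .zero (.var 0), .zero), (.mul .zero (.var 1), .zero)]
  concl := (.mul .zero (.add (.var 0) (.var 1)), .zero)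

/-- `0·k = 0 ∧ 0·m = 0 ∧ x = 1+(k+k) ∧ x = c+((m+m)+m) ∧ (0/2)(0/3) = (0/2)(0/x) → 0/3 = 0/x`. -/
def axMod (c : ℕ) : CondEq where
  hyps := [(.mul .zero (.var 1), .zero), (.mul .zero (.var 2), .zero),
    (.var 0, .add (num 1) (.add (.var 1) (.var 1))),
    (.var 0, .add (num c) (.add (.add (.var 2) (.var 2)) (.var 2))),
    (.mul (.div .zero (num 2)) (.div .zero (num 3)),
      .mul (.div .zero (num 2)) (.div .zero (.var 0)))]
  concl := (.div .zero (num 3), .div .zero (.var 0))

/-- The five conditional equations. -/
def E : List CondEq := [axAssoc, axOne, axAdd, axMod 1, axMod 2]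

theorem valid (F : Type u) [Field F] : ∀ c ∈ E, (commonMeadow F).Sat c := by
  classical
  intro c hc
  simp only [E, List.mem_cons, List.not_mem_nil, or_false] at hc
  rcases hc with rfl | rfl | rfl | rfl | rfl
  · intro v _
    simp only [axAssoc, Alg.eval, commonMeadow]
    rcases v 0 with _ | a <;> rcases v 1 with _ | b <;> rcases v 2 with _ | c <;>
      simp [add_assoc]
  · intro v _
    simp [axOne, Alg.eval, commonMeadow]
  · intro v h
    simp only [axAdd, Alg.eval, commonMeadow, List.mem_cons, List.not_mem_nil, or_false,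
      forall_eq_or_imp, forall_eq] at h ⊢
    rcases h0 : v 0 with _ | a <;> rcases h1 : v 1 with _ | b <;> simp_all
  · intro v h
    simp only [axMod, num, Alg.eval, commonMeadow, List.mem_cons, List.not_mem_nil, or_false,
      forall_eq_or_imp, forall_eq] at h ⊢
    obtain ⟨h1, h2, h3, h4, h5⟩ := h
    rcases hk : v 1 with _ | k
    · rw [hk] at h1; simp at h1
    rcases hm : v 2 with _ | m
    · rw [hm] at h2; simp at h2
    rw [hk] at h3
    rw [hm] at h4
    rcases hx : v 0 with _ | x
    · rw [hx] at h3; simp at h3
    rw [hx] at h3 h4 h5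
    simp only [Option.map_some, Option.bind_some, Option.some.injEq] at h3 h4 h5 ⊢
    by_cases hc2 : (1 + 1 : F) = 0
    · have hx1 : x = 1 := by
        rw [h3]; linear_combination k * hc2
      have h3' : (1 + 1 + 1 : F) ≠ 0 := by
        rw [hc2]; simp
      simp [hx1, hc2]
    · by_cases hc3 : (1 + 1 + 1 : F) = 0
      · have hx1 : x = 1 := by
          rw [h4]; linear_combination m * hc3
        simp [hx1, hc2, hc3] at h5
      · by_cases hx0 : x = 0
        · simp [hx0, hc2, hc3] at h5
        · simp [hx0, hc3]
  · intro v h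
    simp only [axMod, num, Alg.eval, commonMeadow, List.mem_cons, List.not_mem_nil, or_false,
      forall_eq_or_imp, forall_eq] at h ⊢
    obtain ⟨h1, h2, h3, h4, h5⟩ := h
    rcases hk : v 1 with _ | k
    · rw [hk] at h1; simp at h1
    rcases hm : v 2 with _ | m
    · rw [hm] at h2; simp at h2
    rw [hk] at h3
    rw [hm] at h4
    rcases hx : v 0 with _ | x
    · rw [hx] at h3; simp at h3
    rw [hx] at h3 h4 h5
    simp only [Option.map_some, Option.bind_some, Option.some.injEq] at h3 h4 h5 ⊢
    by_cases hc2 : (1 + 1 : F) = 0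
    · have hx1 : x = 1 := by
        rw [h3]; linear_combination k * hc2
      simp [hx1, hc2]
    · by_cases hc3 : (1 + 1 + 1 : F) = 0
      · have hx1 : x = 1 + 1 := by
          rw [h4]; linear_combination m * hc3
        simp [hx1, hc2, hc3] at h5
      · by_cases hx0 : x = 0
        · simp [hx0, hc2, hc3] at h5
        · simp [hx0, hc3]

/-! ### The derivation -/

theorem der_num_add (Γ : List (Tm × Tm)) (a b : ℕ) :
    Der {c | c ∈ E} Γ (.add (num (a + 1)) (num (b + 1))) (num (a + b + 2)) := by
  induction b with
  | zero => exact Der.refl _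
  | succ b ih =>
    have h := Der.rule (E := {c | c ∈ E}) (Γ := Γ) (c := axAssoc)
      (fun i => if i = 0 then num (a + 1) else if i = 1 then num (b + 1) else .one)
      (by simp [E]) (by simp [axAssoc])
    have h' : Der {c | c ∈ E} Γ (.add (num (a + 1)) (.add (num (b + 1)) .one))
      (.add (.add (num (a + 1)) (num (b + 1))) .one) := h
    exact h'.trans (Der.add ih (Der.refl _))

theorem der_zero_mul_num (Γ : List (Tm × Tm)) (a : ℕ) :
    Der {c | c ∈ E} Γ (.mul .zero (num (a + 1))) .zero := by
  have h1 : Der {c | c ∈ E} Γ (.mul .zero .one) .zero :=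
    Der.rule (E := {c | c ∈ E}) (Γ := Γ) (c := axOne) (fun _ => .zero) (by simp [E])
      (by simp [axOne])
  induction a with
  | zero => exact h1
  | succ a ih =>
    have h := Der.rule (E := {c | c ∈ E}) (Γ := Γ) (c := axAdd)
      (fun i => if i = 0 then num (a + 1) else .one) (by simp [E]) (by
        intro e he
        simp only [axAdd, List.mem_cons, List.not_mem_nil, or_false] at he
        rcases he with rfl | rfl
        · exact ih
        · exact h1)
    exact h

theorem der_phi (c p k m : ℕ) (hc : c = 0 ∨ c = 1) (hk : p = 1 + (2 * (k + 1)))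
    (hm : p = (c + 1) + 3 * (m + 1)) : Derivable {c | c ∈ E} (phi p) := by
  unfold Derivable
  set Γ := (phi p).hyps with hΓ
  have hsubst : ∀ (n : ℕ) (σ : ℕ → Tm), (num n).subst σ = num n := by
    intro n σ
    induction n using Nat.strong_induction_on with
    | _ n ih =>
      match n, ih with
      | 0, _ => rfl
      | 1, _ => rfl
      | n + 2, ih => simp only [num, Tm.subst]; rw [ih (n + 1) (by omega)]
  have key := Der.rule (E := {c | c ∈ E}) (Γ := Γ) (c := axMod (c + 1))
    (fun i => if i = 0 then num p else if i = 1 then num (k + 1) else num (m + 1))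
    (by rcases hc with rfl | rfl <;> simp [E]) (by
      intro e he
      simp only [axMod, List.mem_cons, List.not_mem_nil, or_false] at he
      rcases he with rfl | rfl | rfl | rfl | rfl
      · exact der_zero_mul_num Γ k
      · exact der_zero_mul_num Γ m
      · have h1 : Der {c | c ∈ E} Γ (.add (num 1) (.add (num (k + 1)) (num (k + 1)))) (num p) := by
          refine (Der.add (Der.refl _) (der_num_add Γ k k)).trans ?_
          have := der_num_add Γ 0 (k + k + 1)
          rw [show 0 + (k + k + 1) + 2 = p by omega] at this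
          exact this
        exact h1.symm
      · have h1 : Der {c | c ∈ E} Γ (.add (num (c + 1)) (.add (.add (num (m + 1)) (num (m + 1)))
            (num (m + 1)))) (num p) := by
          refine (Der.add (Der.refl _) ((Der.add (der_num_add Γ m m) (Der.refl _)).trans
            (der_num_add Γ (m + m + 1) m))).trans ?_
          have := der_num_add Γ c (m + m + 1 + m + 1)
          rw [show c + (m + m + 1 + m + 1) + 2 = p by omega] at this
          exact this
        have h2 := h1.symm
        simp only [Tm.subst, hsubst]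
        exact h2
      · exact Der.hyp (by rw [hΓ]; simp [phi, Tm.subst, num]))
  exact key

theorem soundness {E : Set CondEq} {Γ : List (Tm × Tm)} {A : Type u} (M : Alg A)
    (hM : ∀ c ∈ E, M.Sat c) (v : ℕ → A) (hv : ∀ e ∈ Γ, M.eval v e.1 = M.eval v e.2)
    {s t : Tm} (h : Der E Γ s t) : M.eval v s = M.eval v t := by
  have hsub : ∀ (σ : ℕ → Tm) (t : Tm), M.eval v (t.subst σ) =
      M.eval (fun i => M.eval v (σ i)) t := by
    intro σ t
    induction t <;> simp_all [Tm.subst, Alg.eval]
  induction h with
  | hyp h => exact hv _ h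
  | refl t => rfl
  | symm _ ih => exact ih.symm
  | trans _ _ ih1 ih2 => exact ih1.trans ih2
  | neg _ ih => simp [Alg.eval, ih]
  | add _ _ ih1 ih2 => simp [Alg.eval, ih1, ih2]
  | mul _ _ ih1 ih2 => simp [Alg.eval, ih1, ih2]
  | div _ _ ih1 ih2 => simp [Alg.eval, ih1, ih2]
  | rule σ hc _ ih =>
    rw [hsub, hsub]
    refine hM _ hc _ fun e he => ?_
    rw [← hsub, ← hsub]
    exact ih e he

/-- There is a finite set of conditional equations, each valid in every common meadow, from which
every `phi p` with `p ≥ 5` prime is derivable in conditional equational logic; in particular each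
such `phi p` is true in every algebra of the signature satisfying the finite set. -/
theorem result :
    ∃ E : List CondEq,
      (∀ (F : Type u) [Field F], ∀ c ∈ E, (commonMeadow F).Sat c) ∧
      ∀ p : ℕ, p.Prime → 5 ≤ p →
        Derivable {c | c ∈ E} (phi p) ∧
        ∀ (A : Type u) (M : Alg A), (∀ c ∈ E, M.Sat c) → M.Sat (phi p) := by
  refine ⟨E, fun F _ => valid F, fun p hp h5 => ?_⟩
  have hd : Derivable {c | c ∈ E} (phi p) := by
    have h2 : ¬ 2 ∣ p := fun h => by
      have := (Nat.prime_dvd_prime_iff_eq Nat.prime_two hp).1 h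
      omega
    have h3 : ¬ 3 ∣ p := fun h => by
      have := (Nat.prime_dvd_prime_iff_eq Nat.prime_three hp).1 h
      omega
    by_cases h : p % 3 = 1
    · exact der_phi 0 p ((p - 1) / 2 - 1) ((p - 1) / 3 - 1) (Or.inl rfl) (by omega) (by omega)
    · exact der_phi 1 p ((p - 1) / 2 - 1) ((p - 2) / 3 - 1) (Or.inr rfl) (by omega) (by omega)
  exact ⟨hd, fun A M hM v hv => soundness M hM v hv hd⟩

end Pool.Agent.Results.MP_f888fa_lc.FiniteBasis
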